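import Pool.Agent.Q283.EN.Stm
import Pool.Agent.Q285.LK.HS1N

/-!
# Project EN (helper283), job HS1N2: norms at inert primes of a Kummer extension, all primes `p`
(after `Pool/Agent/Q285/LK/HS1N.lean`)
-/

set_option autoImplicit false

namespace Pool.Agent.Q65.EN

open NumberField IsDedekindDomain Pool.Agent.Q7.LK Pool.Agent.Q283.EN Polynomial
open Pool.Agent.Q285.LK (norm_unit)

theorem hs1n_core (hBAS : S_BAS) (p : ℕ) [hp : Fact p.Prime] (F : Type) [Field F] [NumberField F] (ζ : F)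
    (hζ : IsPrimitiveRoot ζ p) : P_HS1N p F ζ := by
  intro M _ _ _ c hc0 hk v hv hvc hsy y hy
  obtain ⟨b1, b2, b3, b4, b5, b6, b7⟩ := hBAS p F v
  obtain ⟨-, -, -, b8⟩ := b7 hv ζ hζ
  have hnl : ¬ Lpw p v c := fun h => hsy ((b8 c hc0 hvc).2 h)
  have hvp : v.valuation F ((p : F) ^ 2) = 1 := by
    have h1 : v.valuation F (algebraMap (𝓞 F) F (p : 𝓞 F)) = 1 := by
      refine le_antisymm (v.valuation_le_one _) (not_lt.1 fun h => ?_)
      rw [v.valuation_lt_one_iff_mem] at h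
      exact hv h
    rw [map_natCast] at h1
    rw [map_pow, h1, one_pow]
  -- make `c` a unit
  have hvc0 : v.valuation F c ≠ 0 := (Valuation.ne_zero_iff _).2 hc0
  obtain ⟨ϖ, hϖ⟩ := v.valuation_exists_uniformizer F
  have hϖ0 : ϖ ≠ 0 := by
    rintro rfl
    rw [map_zero] at hϖ
    exact WithZero.exp_ne_zero hϖ.symm
  have hdv : (p : ℤ) ∣ WithZero.log (v.valuation F c) := by
    rw [← ZMod.intCast_zmod_eq_zero_iff_dvd]
    have h1 : -((WithZero.log (v.valuation F c) : ℤ) : ZMod p) = 0 := hvc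
    rwa [neg_eq_zero] at h1
  obtain ⟨k, hk1⟩ := hdv
  set x : F := ϖ ^ k with hx
  have hx0 : x ≠ 0 := zpow_ne_zero _ hϖ0
  have hcx : v.valuation F (c * x ^ p) = 1 := by
    rw [map_mul, map_pow, hx, map_zpow₀, hϖ, ← WithZero.exp_log hvc0, hk1, ← WithZero.exp_zsmul,
      ← WithZero.exp_nsmul, ← WithZero.exp_add, ← WithZero.exp_zero]
    congr 1
    simp only [smul_eq_mul, nsmul_eq_mul]
    ring
  have hk' : Kum p F M (c * x ^ p) := by
    obtain ⟨hdeg, ρ, hρ⟩ := hk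
    exact ⟨hdeg, ρ * algebraMap F M x, by rw [mul_pow, hρ, map_mul, map_pow]⟩
  have hcx' : ∀ t : F, ¬ v.valuation F (t ^ p - c * x ^ p) < 1 := by
    intro t ht
    have ht1 : v.valuation F (t ^ p) = 1 := by
      have h1 := (v.valuation F).map_add_eq_of_lt_left (x := c * x ^ p) (y := t ^ p - c * x ^ p)
        (by rw [hcx]; exact ht)
      rwa [add_sub_cancel, hcx] at h1
    have ht0 : t ≠ 0 := by
      rintro rfl
      rw [zero_pow hp.out.ne_zero, map_zero] at ht1
      exact zero_ne_one ht1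
    apply hnl
    refine b6 c (x / t) ?_
    rw [hvp]
    have h2 : c * (x / t) ^ p - 1 = -((t ^ p - c * x ^ p) / t ^ p) := by
      have := pow_ne_zero p ht0
      rw [div_pow]
      field_simp
      ring
    rw [h2, Valuation.map_neg, map_div₀, ht1, div_one]
    exact ht
  obtain ⟨s, hs0, hs1⟩ := norm_unit hp.out hζ hk' v hcx hcx' hy
  have hN : Algebra.norm F y ≠ 0 := by
    intro h
    rw [h, mul_zero, map_zero] at hs1
    exact zero_ne_one hs1
  have h1 := b5 (s ^ p) (Algebra.norm F y) (pow_ne_zero _ hs0) hN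
  rw [(b1 _ (b3 s hs0)).2, zero_add] at h1
  rw [← h1]
  unfold vl
  rw [hs1, WithZero.log_one]
  simp

/-- **JOB HS1N2** -/
theorem hs1n2 (hBAS : Pool.Agent.Q7.LK.S_BAS) : Pool.Agent.Q283.EN.S_HS1N2 :=
  fun F _ _ _ ζ _ hζ => hs1n_core hBAS 2 F ζ hζ

end Pool.Agent.Q65.EN
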